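import Mathlib

set_option autoImplicit false

namespace Pool.Agent.H.MP_576b63_co

def bt (x i : ℕ) : ℕ := x / 2 ^ i % 2

def cst (E i x : ℕ) : ℕ := if i < E then 1 - bt x i else bt x i

def rk (E : ℕ) : ℕ → ℕ → ℕ
  | 0, _ => 0
  | n + 1, x => 2 * rk E n x + cst E n x

lemma bt_lt (x i : ℕ) : bt x i < 2 := Nat.mod_lt _ (by norm_num)

lemma cst_lt (E i x : ℕ) : cst E i x < 2 := by
  have := bt_lt x i
  unfold cst; split_ifs <;> omega

lemma rk_lt (E n x : ℕ) : rk E n x < 2 ^ n := by
  induction n with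
  | zero => simp [rk]
  | succ n ih => have := cst_lt E n x; simp only [rk, pow_succ]; omega

lemma bt_congr {x y v i : ℕ} (h : x % 2 ^ v = y % 2 ^ v) (hi : i < v) : bt x i = bt y i := by
  have key : ∀ z : ℕ, bt z i = bt (z % 2 ^ v) i := by
    intro z
    unfold bt
    obtain ⟨c, rfl⟩ := Nat.exists_eq_add_of_lt hi
    have e : 2 ^ (i + c + 1) = 2 ^ i * (2 * 2 ^ c) := by ring
    rw [e, Nat.mod_mul_right_div_self, Nat.mod_mul_right_mod]
  rw [key x, key y, h]

lemma rk_congr {x y v : ℕ} (E : ℕ) (h : x % 2 ^ v = y % 2 ^ v) :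
    ∀ n, n ≤ v → rk E n x = rk E n y := by
  intro n
  induction n with
  | zero => intro _; rfl
  | succ n ih =>
    intro hn
    simp only [rk, cst]
    rw [ih (by omega), bt_congr h (by omega : n < v)]

lemma rk_lt_rk {x y v : ℕ} (E : ℕ) (h : x % 2 ^ v = y % 2 ^ v) (hc : cst E v x < cst E v y) :
    ∀ n, v < n → rk E n x < rk E n y := by
  intro n hn
  induction n, hn using Nat.le_induction with
  | base => simp only [rk]; rw [rk_congr E h v le_rfl]; omega
  | succ n _ ih =>
    have := cst_lt E n x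
    simp only [rk]; omega

def D : ℕ → ℕ
  | 0 => 0
  | s + 1 => D s + 2 ^ D s

lemma D_lt (s : ℕ) : D s < D (s + 1) := by
  have : 0 < 2 ^ D s := by positivity
  simp only [D]; omega

lemma D_mono : StrictMono D := strictMono_nat_of_lt_succ D_lt

def be (s x : ℕ) : ℕ := 2 ^ (D s + rk 0 (D s) x)

lemma be_lt (s x : ℕ) : be s x < 2 ^ D (s + 1) := by
  have := rk_lt 0 (D s) x
  unfold be
  apply Nat.pow_lt_pow_right (by norm_num)
  simp only [D]; omega

lemma le_be (s x : ℕ) : 2 ^ D s ≤ be s x := Nat.pow_le_pow_right (by norm_num) (by omega)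

lemma ex_t (x : ℕ) : ∃ s, x < be s x :=
  ⟨x, lt_of_lt_of_le (lt_of_lt_of_le Nat.lt_two_pow_self
    (Nat.pow_le_pow_right (by norm_num) (D_mono.id_le x))) (le_be x x)⟩

def t (x : ℕ) : ℕ := Nat.find (ex_t x)

lemma t_spec (x : ℕ) : x < be (t x) x := Nat.find_spec (ex_t x)

lemma pD {a b : ℕ} (h : a ≤ b) : 2 ^ D a ≤ 2 ^ D b :=
  Nat.pow_le_pow_right (by norm_num) (D_mono.monotone h)

lemma t_le {x s : ℕ} : t x ≤ s ↔ x < be s x := by
  constructor
  · intro h
    rcases h.eq_or_lt with h | h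
    · rw [← h]; exact t_spec x
    · exact lt_of_lt_of_le ((t_spec x).trans (be_lt _ _)) ((pD h).trans (le_be s x))
  · intro h; exact Nat.find_min' _ h

lemma lt_pD (x : ℕ) : x < 2 ^ D (t x + 1) := (t_spec x).trans (be_lt _ _)

lemma le_t {x s v : ℕ} (hv : D s ≤ v) (h : 2 ^ v ≤ x) : s ≤ t x := by
  by_contra hc
  have h1 := lt_pD x
  have h2 : 2 ^ D (t x + 1) ≤ 2 ^ D s := pD (by omega)
  have h3 : 2 ^ D s ≤ 2 ^ v := Nat.pow_le_pow_right (by norm_num) hv
  omega

lemma big_of_bt {x v : ℕ} (h : bt x v = 1) : 2 ^ v ≤ x := by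
  by_contra hc
  unfold bt at h
  rw [Nat.div_eq_of_lt (by omega)] at h
  omega

lemma t_mono {x y s v : ℕ} (hv : D s ≤ v) (h : x % 2 ^ v = y % 2 ^ v) (hxy : x ≤ y)
    (hy : t y ≤ s) : t x ≤ s := by
  rw [t_le] at hy ⊢
  have : be s x = be s y := by unfold be; rw [rk_congr 0 h _ hv]
  omega

def key (x : ℕ) : ℕ := 2 ^ D (t x + 1) + rk (D (t x)) (D (t x + 1)) x

lemma key_lt_of_t {x y : ℕ} (h : t x < t y) : key x < key y := by
  have h1 := rk_lt (D (t x)) (D (t x + 1)) x
  have h2 : 2 ^ (D (t x + 1) + 1) ≤ 2 ^ D (t y + 1) :=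
    Nat.pow_le_pow_right (by norm_num) (D_mono (by omega : t x + 1 < t y + 1))
  unfold key
  rw [pow_succ] at h2
  omega

lemma v_lt {x v : ℕ} (h : bt x v = 1) : v < D (t x + 1) :=
  (Nat.pow_lt_pow_iff_right (by norm_num : 1 < 2)).1 (lt_of_le_of_lt (big_of_bt h) (lt_pD x))

lemma tie_hi {x y v : ℕ} (h : x % 2 ^ v = y % 2 ^ v) (hx : bt x v = 1) (hy : bt y v = 0)
    (ht : t x = t y) (hv : v < D (t x)) : key x < key y := by
  have := rk_lt_rk (D (t x)) h (by simp [cst, hv, hx, hy]) _ (v_lt hx)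
  unfold key; rw [← ht]; omega

lemma tie_lo {x y v : ℕ} (h : x % 2 ^ v = y % 2 ^ v) (hx : bt x v = 1) (hy : bt y v = 0)
    (ht : t x = t y) (hv : D (t x) ≤ v) : key y < key x := by
  have := rk_lt_rk (D (t x)) h.symm (by simp [cst, not_lt.2 hv, hx, hy]) _ (v_lt hx)
  unfold key; rw [← ht]; omega

lemma star {x y v s : ℕ} (h : x % 2 ^ v = y % 2 ^ v) (hx : bt x v = 1) (hy : bt y v = 0)
    (hv : v < D (s + 1)) (hs : s + 1 ≤ t y) (hxy : x ≤ 2 * y) : key x < key y := by
  have hv' : v < D (t y) := lt_of_lt_of_le hv (D_mono.monotone hs)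
  have hle : t x ≤ t y := by
    rw [t_le]
    have h1 := t_spec y
    have h2 := rk_lt_rk 0 h.symm (by simp [cst, hx, hy]) _ hv'
    have h3 : 2 * be (t y) y ≤ be (t y) x := by
      unfold be
      rw [← pow_succ']
      exact Nat.pow_le_pow_right (by norm_num) (by omega)
    omega
  rcases hle.eq_or_lt with e | e
  · exact tie_hi h hx hy e (by rw [e]; exact hv')
  · exact key_lt_of_t e

lemma ex_s (v : ℕ) : ∃ s, D s ≤ v ∧ v < D (s + 1) := by
  induction v with
  | zero => exact ⟨0, by simp [D]⟩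
  | succ v ih =>
    obtain ⟨s, h1, h2⟩ := ih
    by_cases h : v + 1 < D (s + 1)
    · exact ⟨s, by omega, h⟩
    · have := D_lt (s + 1)
      exact ⟨s + 1, by omega, by omega⟩

lemma step (a v m : ℕ) : (a + 2 ^ v * (2 * m + 1)) % 2 ^ v = a % 2 ^ v ∧
    bt (a + 2 ^ v * (2 * m + 1)) v + bt a v = 1 := by
  refine ⟨Nat.add_mul_mod_self_left _ _ _, ?_⟩
  unfold bt
  rw [Nat.add_mul_div_left _ _ (by positivity)]
  omega

lemma decomp {d : ℕ} (hd : 0 < d) : ∃ v m, d = 2 ^ v * (2 * m + 1) := by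
  obtain ⟨v, k, ⟨m, hm⟩, e⟩ := Nat.exists_eq_two_pow_mul_odd hd.ne'
  exact ⟨v, m, by rw [e, hm]⟩

lemma key_ne {x y : ℕ} (h : x < y) : key x ≠ key y := by
  obtain ⟨v, m, e⟩ := decomp (by omega : 0 < y - x)
  obtain ⟨h1, h2⟩ := step x v m
  rw [← e, (by omega : x + (y - x) = y)] at h1 h2
  rcases lt_trichotomy (t x) (t y) with g | g | g
  · exact (key_lt_of_t g).ne
  · have b1 := bt_lt x v
    have b2 := bt_lt y v
    by_cases hb : bt x v = 1
    · by_cases hv : v < D (t x)
      · exact (tie_hi h1.symm hb (by omega) g hv).ne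
      · exact (tie_lo h1.symm hb (by omega) g (by omega)).ne'
    · by_cases hv : v < D (t y)
      · exact (tie_hi h1 (by omega) (by omega) g.symm hv).ne'
      · exact (tie_lo h1 (by omega) (by omega) g.symm (by omega)).ne
  · exact (key_lt_of_t g).ne'

lemma key_inj : Function.Injective key := by
  intro x y h
  rcases lt_trichotomy x y with g | g | g
  · exact absurd h (key_ne g)
  · exact g
  · exact absurd h.symm (key_ne g)

lemma noAP (a d : ℕ) (hd : 0 < d) :
    ¬ (key a < key (a + d) ∧ key (a + d) < key (a + d + d) ∧ key (a + d + d) < key (a + d + d + d)) ∧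
    ¬ (key (a + d + d + d) < key (a + d + d) ∧ key (a + d + d) < key (a + d) ∧ key (a + d) < key a) := by
  obtain ⟨v, m, e⟩ := decomp hd
  obtain ⟨s, hs1, hs2⟩ := ex_s v
  obtain ⟨m1, b1⟩ := step a v m
  obtain ⟨m2, b2⟩ := step (a + d) v m
  obtain ⟨m3, b3⟩ := step (a + d + d) v m
  rw [← e] at m1 m2 m3 b1 b2 b3
  have hdv : 2 ^ v ≤ d := by rw [e]; exact Nat.le_mul_of_pos_right _ (by omega)
  have t1 : s ≤ t (a + d) := le_t hs1 (by omega)
  have t2 : s ≤ t (a + d + d) := le_t hs1 (by omega)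
  have c0 := bt_lt a v
  generalize hw1 : a + d = w1 at *
  generalize hw2 : w1 + d = w2 at *
  generalize hw3 : w2 + d = w3 at *
  by_cases hb : bt a v = 1
  · have t0 : s ≤ t a := le_t hs1 (big_of_bt hb)
    constructor
    · rintro ⟨k1, k2, -⟩
      by_cases h : s + 1 ≤ t w1
      · have := star m2 (by omega) (by omega) hs2 h (by omega); omega
      · have h0 : t a ≤ s := t_mono hs1 m1.symm (by omega) (by omega)
        have := tie_lo m1.symm hb (by omega) (by omega) (by rw [(by omega : t a = s)]; exact hs1)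
        omega
    · rintro ⟨k1, k2, -⟩
      by_cases h : s + 1 ≤ t w3
      · have := star m3.symm (by omega) (by omega) hs2 h (by omega); omega
      · have h2 : t w2 ≤ s := t_mono hs1 m3.symm (by omega) (by omega)
        have h1 : t w1 ≤ s := t_mono hs1 m2.symm (by omega) h2
        have := tie_lo m2 (by omega) (by omega) (by omega) (by rw [(by omega : t w2 = s)]; exact hs1)
        omega
  · constructor
    · rintro ⟨-, k2, k3⟩
      by_cases h : s + 1 ≤ t w2
      · have := star m3 (by omega) (by omega) hs2 h (by omega); omega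
      · have h1 : t w1 ≤ s := t_mono hs1 m2.symm (by omega) (by omega)
        have := tie_lo m2.symm (by omega) (by omega) (by omega)
          (by rw [(by omega : t w1 = s)]; exact hs1)
        omega
    · rintro ⟨-, k2, k3⟩
      by_cases h : s + 1 ≤ t w2
      · have := star m2.symm (by omega) (by omega) hs2 h (by omega); omega
      · have h1 : t w1 ≤ s := t_mono hs1 m2.symm (by omega) (by omega)
        have h0 : t a ≤ s := t_mono hs1 m1.symm (by omega) h1
        rcases h0.eq_or_lt with h0 | h0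
        · have := tie_lo m1 (by omega) (by omega) (by omega)
            (by rw [(by omega : t w1 = s)]; exact hs1)
          omega
        · have := key_lt_of_t (by omega : t a < t w1); omega

lemma enum {α : Type} [Infinite α] (k : α → ℕ) (hk : Function.Injective k) :
    ∃ g : ℕ → α, Function.Bijective g ∧ StrictMono (fun n => k (g n)) := by
  classical
  have hinf : Infinite (Set.range k) := Set.infinite_coe_iff.2 (Set.infinite_range_of_injective hk)
  have hne : Nonempty α := inferInstance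
  let e := Nat.orderEmbeddingOfSet (Set.range k)
  have hr : Set.range e = Set.range k := Nat.orderEmbeddingOfSet_range _
  have hk' : ∀ n, k (Function.invFun k (e n)) = e n := fun n =>
    Function.invFun_eq (by have : e n ∈ Set.range k := hr ▸ Set.mem_range_self n
                           exact this)
  refine ⟨fun n => Function.invFun k (e n), ⟨?_, ?_⟩, ?_⟩
  · intro a b h
    have := congrArg k h
    simp only [hk'] at this
    exact e.injective this
  · intro x
    obtain ⟨n, hn⟩ : k x ∈ Set.range e := hr.symm ▸ Set.mem_range_self x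
    exact ⟨n, hk (by rw [hk', hn])⟩
  · intro a b h
    simp only [hk']
    exact e.strictMono h

theorem main : ∃ f : ℕ+ → ℕ+, Function.Bijective f ∧
    ∀ i j k l : ℕ+, i < j → j < k → k < l →
      ¬ (((f j : ℕ) : ℤ) - ((f i : ℕ) : ℤ) = ((f k : ℕ) : ℤ) - ((f j : ℕ) : ℤ) ∧
         ((f k : ℕ) : ℤ) - ((f j : ℕ) : ℤ) = ((f l : ℕ) : ℤ) - ((f k : ℕ) : ℤ)) := by
  obtain ⟨g, hg, hm⟩ := enum (fun x : ℕ+ => key x) (key_inj.comp PNat.coe_injective)
  refine ⟨fun n => g n.natPred, hg.comp Equiv.pnatEquivNat.bijective, ?_⟩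
  rintro i j k l hij hjk hkl ⟨e1, e2⟩
  have k1 := hm (PNat.natPred_strictMono hij)
  have k2 := hm (PNat.natPred_strictMono hjk)
  have k3 := hm (PNat.natPred_strictMono hkl)
  beta_reduce at k1 k2 k3 e1 e2
  generalize (g i.natPred : ℕ) = a at *
  generalize (g j.natPred : ℕ) = b at *
  generalize (g k.natPred : ℕ) = c at *
  generalize (g l.natPred : ℕ) = d at *
  rcases lt_trichotomy a b with h | h | h
  · apply (noAP a (b - a) (by omega)).1
    rw [(by omega : a + (b - a) = b), (by omega : b + (b - a) = c), (by omega : c + (b - a) = d)]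
    exact ⟨k1, k2, k3⟩
  · rw [h] at k1; omega
  · apply (noAP d (a - b) (by omega)).2
    rw [(by omega : d + (a - b) = c), (by omega : c + (a - b) = b), (by omega : b + (a - b) = a)]
    exact ⟨k1, k2, k3⟩

end Pool.Agent.H.MP_576b63_co
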